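import Pool.Agent.MP_ed9623_an.H77.SpecZ

/-! Uniqueness for complete bounded solutions with the same pressure. -/

open MeasureTheory Filter Topology Set
open scoped ContDiff

namespace Pool.Agent.MP_ed9623_an.H77

open H64

namespace Uniq

theorem half {u v : E6} {j : Fin 2} {y : P} (h : AeAna (vl (u + v) j) y)
    (h' : AeAna (vl (u - v) j) y) : AeAna (vl u j) y := by
  obtain ⟨F, ε, e, a, b⟩ := h
  obtain ⟨F', ε', e', a', b'⟩ := h'
  refine ⟨fun p => 1 / 2 * (F p + F' p), min ε ε', lt_min e e', analyticAt_const.mul (a.add a'), ?_⟩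
  filter_upwards [b, b', co_add u v (j, none), co_sub u v (j, none)] with p c c' d d' hp
  rw [← c (Metric.ball_subset_ball (min_le_left _ _) hp),
    ← c' (Metric.ball_subset_ball (min_le_right _ _) hp)]
  unfold vl
  rw [d, d']
  ring

theorem pt {Ω : Set P} {x τ : P} {γ : ℝ → ℝ} {r ε : ℝ} (h : Ch Ω x τ γ 0 r) (e : 0 < ε) :
    ∃ y ∈ Ω, ∃ δ : ℝ, 0 < δ ∧ Metric.ball y δ ⊆ Metric.ball x ε := by
  obtain ⟨r', a, b, c⟩ := h.small e
  have m : ((0, r' / 2) : P) ∈ Q r' := mem_Q.2 ⟨by simpa using a, by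
    rw [abs_of_pos (half_pos a)]; exact half_lt_self a⟩
  exact ⟨_, (h.mem _ (Q_mono b m)).2 (half_pos a), Metric.isOpen_iff.1 Metric.isOpen_ball _
    (c (by rw [mem_preimage, Thi_Th h.un]; exact m))⟩

end Uniq

theorem rowUniq : OfUniq := by
  intro hC hU hA hB hN hL ρ x g R a w hρ hc hx hk H hP
  refine or_iff_not_imp_left.2 fun hw => ?_
  obtain ⟨τ, γ, r, ch, hγ, hz⟩ := hC ρ x hρ hx hk
  have o : IsOpen {x | ρ x < 0} := isOpen_lt hρ.continuous continuous_const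
  have key : ∀ α β : ℝ, α < β → β ≤ 0 → ∃ t ∈ Ioo α β, a t = 0 := fun α β hl hβ => by
    obtain ⟨I, ε, oI, ⟨t, ht⟩, sub, e, h | h⟩ := hA _ x τ γ r R α β g a w o ch hγ hP hl
    · exact (hw ⟨t, (sub ht).2.le.trans hβ, hU _ x τ γ r R ε g a w I o hc ch hP oI e h t ht⟩).elim
    rcases hB ρ x τ γ r R ε g a w I hρ hx hk ch hz hP oI ⟨t, ht⟩ e h with
      ⟨I', ε', oI', ⟨t', ht'⟩, sub', e', h'⟩ | ⟨b, c⟩
    · exact (hw ⟨t', (sub (sub' ht')).2.le.trans hβ,
        hU _ x τ γ r R ε' g a w I' o hc ch hP oI' e' h' t' ht'⟩).elim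
    obtain ⟨y, hy, δ, d, s⟩ := Uniq.pt ch e
    exact ⟨t, sub ht, eq_zero_of_van (hP.ma t).1 fun j => hL _ _ o hc (fun z hz => Uniq.half
      (hN _ g R _ o hP.mg hP.s1 (H b c) t j z hz) (hN _ g R _ o hP.mg hP.s2 (H b c) t j z hz))
      ⟨y, hy, δ, d, (h t ht j).mono s⟩⟩
  intro t ht
  refine (isClosed_eq hP.sa.continuous continuous_const).closure_subset
    (Metric.mem_closure_iff.2 fun ε e => ?_)
  obtain ⟨s, ⟨s1, s2⟩, hs⟩ := key t (min (t + ε) 0) (lt_min (by linarith) ht) (min_le_right _ _)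
  refine ⟨s, hs, ?_⟩
  rw [Real.dist_eq, abs_lt]
  constructor <;> linarith [min_le_left (t + ε) 0]

end Pool.Agent.MP_ed9623_an.H77
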